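import Mathlib

/-!
# The Mittag-Leffler square sum for all positive parameters: definitions
-/

namespace Pool.Agent.KS6_42.ML

/-- The two-parameter Mittag-Leffler function `E_{a,b}(z) = ∑ z ^ k / Γ(a k + b)` of a real
variable. -/
noncomputable def E (a b z : ℝ) : ℝ := ∑' k : ℕ, z ^ k / Real.Gamma (a * k + b)

/-- The function `f_α(t) = |E_{2α,1}(-t)|² + t |E_{2α,1+α}(-t)|²`. -/
noncomputable def sqSum (α t : ℝ) : ℝ := |E (2 * α) 1 (-t)| ^ 2 + t * |E (2 * α) (1 + α) (-t)| ^ 2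

/-- Complete monotonicity on `(0, ∞)`: the function is smooth there and `(-1)^n g^{(n)}(t) ≥ 0` for
all `n ≥ 0` and `t > 0`. -/
def CM (g : ℝ → ℝ) : Prop :=
  ContDiffOn ℝ (⊤ : ℕ∞) g (Set.Ioi 0) ∧ ∀ (n : ℕ) (t : ℝ), 0 < t → 0 ≤ (-1) ^ n * iteratedDeriv n g t

end Pool.Agent.KS6_42.ML
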