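import Pool.Graph.R_pool_sql_team_seeded_64922ed1.X116.CMser

/-!
# Re-expansion of an entire completely monotone function and its growth on the negative axis
-/

open Finset Filter Topology

namespace Pool.Agent.KS6_42.ML

open Pool.Agent.X116.CMser

/-- The Taylor expansion at `s` of `gk m j`. -/
lemma hasSum_taylor {m : ℕ → ℝ} (hm : Bd m) (j : ℕ) (s y : ℝ) :
    HasSum (fun k : ℕ => gk m (j + k) s * ((s - y) ^ k / (k.factorial : ℝ))) (gk m j y) := by
  set F : ℕ × ℕ → ℝ := fun p => m (p.2 + (j + p.1)) / (p.2.factorial : ℝ) * (-s) ^ p.2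
      * ((s - y) ^ p.1 / (p.1.factorial : ℝ)) with hF
  set R : ℝ := |s - y| + |s| with hR
  have hR0 : 0 ≤ R := by positivity
  -- the sums over antidiagonals
  have hanti : ∀ N : ℕ, ∑ p ∈ antidiagonal N, F p = m (N + j) / (N.factorial : ℝ) * (-y) ^ N := by
    intro N
    have e : (-y) = (s - y) + (-s) := by ring
    rw [e, Commute.add_pow' (Commute.all _ _), Finset.mul_sum]
    refine Finset.sum_congr rfl fun p hp => ?_
    have hp' : p.1 + p.2 = N := mem_antidiagonal.mp hp
    simp only [hF, nsmul_eq_mul]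
    have e1 : p.2 + (j + p.1) = N + j := by omega
    have e2 : (N.choose p.1 : ℝ) = (N.factorial : ℝ) / ((p.1.factorial : ℝ) * (p.2.factorial : ℝ)) := by
      have h3 : p.2 = N - p.1 := by omega
      rw [h3, Nat.cast_choose ℝ (by omega)]
    rw [e1, e2]
    have h1 : (p.1.factorial : ℝ) ≠ 0 := by positivity
    have h2 : (p.2.factorial : ℝ) ≠ 0 := by positivity
    have h4 : (N.factorial : ℝ) ≠ 0 := by positivity
    field_simp
  have hantin : ∀ N : ℕ, ∑ p ∈ antidiagonal N, ‖F p‖
      = |m (N + j) / (N.factorial : ℝ)| * R ^ N := by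
    intro N
    rw [hR, Commute.add_pow' (Commute.all _ _), Finset.mul_sum]
    refine Finset.sum_congr rfl fun p hp => ?_
    have hp' : p.1 + p.2 = N := mem_antidiagonal.mp hp
    simp only [hF, nsmul_eq_mul]
    have e1 : p.2 + (j + p.1) = N + j := by omega
    have e2 : (N.choose p.1 : ℝ) = (N.factorial : ℝ) / ((p.1.factorial : ℝ) * (p.2.factorial : ℝ)) := by
      have h3 : p.2 = N - p.1 := by omega
      rw [h3, Nat.cast_choose ℝ (by omega)]
    rw [e1, e2]
    simp only [norm_mul, norm_div, norm_pow, norm_neg, Real.norm_eq_abs, abs_div, Nat.abs_cast]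
    have h1 : (p.1.factorial : ℝ) ≠ 0 := by positivity
    have h2 : (p.2.factorial : ℝ) ≠ 0 := by positivity
    have h4 : (N.factorial : ℝ) ≠ 0 := by positivity
    field_simp
  have hsum1 : Summable fun N : ℕ => |m (N + j) / (N.factorial : ℝ)| * R ^ N := by
    obtain ⟨C, hC, h⟩ := hm (1 / (2 * (R + 1))) (by positivity) j
    refine Summable.of_nonneg_of_le (fun N => by positivity) (fun N => ?_)
      ((summable_geometric_of_lt_one (r := (1 / 2 : ℝ)) (by norm_num) (by norm_num)).mul_left C)
    calc |m (N + j) / (N.factorial : ℝ)| * R ^ N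
        ≤ (C * (1 / (2 * (R + 1))) ^ N) * (R + 1) ^ N := by
          gcongr
          · exact h N
          · linarith
      _ = C * (1 / 2) ^ N := by
          rw [mul_assoc, ← mul_pow]
          congr 2
          field_simp
  have hsig : Summable fun x : Σ n : ℕ, antidiagonal n => ‖F x.2‖ := by
    rw [summable_sigma_of_nonneg (fun _ => norm_nonneg _)]
    refine ⟨fun N => (hasSum_fintype _).summable, ?_⟩
    have e : (fun N : ℕ => ∑' p : antidiagonal N, ‖F p‖)
        = fun N : ℕ => |m (N + j) / (N.factorial : ℝ)| * R ^ N := by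
      funext N
      rw [← hantin N, tsum_fintype]
      exact Finset.sum_coe_sort (antidiagonal N) (fun p => ‖F p‖)
    rw [e]
    exact hsum1
  have hsumF : Summable F := by
    have h : Summable fun p : ℕ × ℕ => ‖F p‖ := by
      rw [← (Finset.HasAntidiagonal.sigmaAntidiagonalEquivProd (A := ℕ)).summable_iff]
      exact hsig
    exact h.of_norm
  have hsigF : Summable fun x : Σ n : ℕ, antidiagonal n => F x.2 := hsig.of_norm
  -- the total
  have htot : ∑' p, F p = gk m j y := by
    rw [← (Finset.HasAntidiagonal.sigmaAntidiagonalEquivProd (A := ℕ)).tsum_eq F]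
    have : ∑' x : Σ n : ℕ, antidiagonal n, F x.2 = ∑' N : ℕ, ∑' p : antidiagonal N, F p :=
      hsigF.tsum_sigma' fun N => (hasSum_fintype _).summable
    refine Eq.trans this ?_
    unfold gk
    refine tsum_congr fun N => ?_
    rw [← hanti N, tsum_fintype]
    exact Finset.sum_coe_sort (antidiagonal N) F
  have hfib : ∀ k : ℕ, HasSum (fun n => F (k, n)) (gk m (j + k) s * ((s - y) ^ k / (k.factorial : ℝ))) := by
    intro k
    have h1 : Summable fun n : ℕ => F (k, n) := hsumF.comp_injective (Prod.mk_right_injective k)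
    have h2 : ∑' n : ℕ, F (k, n) = gk m (j + k) s * ((s - y) ^ k / (k.factorial : ℝ)) := by
      simp only [hF]
      rw [tsum_mul_right]
      rfl
    rw [← h2]
    exact h1.hasSum
  have := hsumF.hasSum.prod_fiberwise hfib
  rwa [htot] at this

/-- An entire completely monotone function with value `1` at `0` and derivative `-μ` at `0` grows
exponentially on the negative axis. -/
lemma growth {m : ℕ → ℝ} (hm : Bd m) (h1 : m 0 = 1) {x : ℝ} (hx : 0 < x)
    (hpos : ∀ k : ℕ, 0 ≤ gk m k x) : Real.exp (x * m 1 * Real.log 2) ≤ gk m 0 (-x) := by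
  have g0 : ∀ j : ℕ, gk m j 0 = m j := by
    intro j
    unfold gk
    rw [tsum_eq_single 0]
    · simp
    · intro n hn
      rw [neg_zero, zero_pow hn, mul_zero]
  have A := hasSum_taylor hm 0 x 0
  have B := hasSum_taylor hm 1 x 0
  have C := hasSum_taylor hm 0 x (-x)
  rw [g0, h1] at A
  rw [g0] at B
  simp only [sub_zero, zero_add] at A B C
  set q : ℕ → ℝ := fun k => gk m k x * (x ^ k / (k.factorial : ℝ)) with hq
  have hq0 : ∀ k, 0 ≤ q k := fun k => mul_nonneg (hpos k) (by positivity)
  have C' : HasSum (fun k => q k * 2 ^ k) (gk m 0 (-x)) := by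
    refine C.congr_fun fun k => ?_
    simp only [hq]
    have : x - -x = x * 2 := by ring
    rw [this, mul_pow]
    ring
  have B' : HasSum (fun k : ℕ => (k : ℝ) * q k) (x * m 1) := by
    rw [← hasSum_nat_add_iff' 1]
    simp only [Finset.range_one, Finset.sum_singleton, Nat.cast_zero, zero_mul, sub_zero]
    refine (B.mul_left x).congr_fun fun k => ?_
    simp only [hq]
    rw [Nat.factorial_succ, add_comm 1 k]
    have h2 : (k.factorial : ℝ) ≠ 0 := by positivity
    have h3 : ((k : ℝ) + 1) ≠ 0 := by positivity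
    push_cast
    rw [pow_succ]
    field_simp
  set μ : ℝ := x * m 1 with hμ
  have D : HasSum (fun k : ℕ => Real.exp (μ * Real.log 2) * (q k + ((k : ℝ) * q k - μ * q k) * Real.log 2))
      (Real.exp (μ * Real.log 2) * (1 + (μ - μ * 1) * Real.log 2)) :=
    (A.add ((B'.sub (A.mul_left μ)).mul_right (Real.log 2))).mul_left _
  have hle := hasSum_le (fun k => ?_) D C'
  · rw [mul_one, sub_self, zero_mul, add_zero, mul_one] at hle
    exact hle
  · have e2 : (2 : ℝ) ^ k = Real.exp (μ * Real.log 2) * Real.exp (((k : ℝ) - μ) * Real.log 2) := by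
      rw [← Real.exp_add]
      have : μ * Real.log 2 + ((k : ℝ) - μ) * Real.log 2 = (k : ℝ) * Real.log 2 := by ring
      rw [this, Real.exp_nat_mul, Real.exp_log (by norm_num)]
    have e3 := Real.add_one_le_exp (((k : ℝ) - μ) * Real.log 2)
    have e4 : 0 < Real.exp (μ * Real.log 2) := Real.exp_pos _
    calc Real.exp (μ * Real.log 2) * (q k + ((k : ℝ) * q k - μ * q k) * Real.log 2)
        = Real.exp (μ * Real.log 2) * q k * (((k : ℝ) - μ) * Real.log 2 + 1) := by ring
      _ ≤ Real.exp (μ * Real.log 2) * q k * Real.exp (((k : ℝ) - μ) * Real.log 2) := by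
          have := hq0 k
          gcongr
      _ = q k * 2 ^ k := by rw [e2]; ring

end Pool.Agent.KS6_42.ML
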