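import Mathlib

/-!
# Strict convexity properties of `log Γ`
-/

open Real Set

namespace Pool.Agent.KS6_42.ML

/-- `log Γ` -/
noncomputable def lG (x : ℝ) : ℝ := Real.log (Real.Gamma x)

lemma lG_add_one {x : ℝ} (hx : 0 < x) : lG (x + 1) = lG x + Real.log x := by
  unfold lG
  rw [Real.Gamma_add_one hx.ne', Real.log_mul hx.ne' (Real.Gamma_pos_of_pos hx).ne']
  ring

/-- four point form of convexity -/
lemma lG_four {X Y h : ℝ} (hY : 0 < Y) (hXY : Y ≤ X) (hh : 0 ≤ h) :
    lG (Y + h) + lG X ≤ lG Y + lG (X + h) := by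
  have hc : ConvexOn ℝ (Ioi 0) (fun x => lG x) := Real.convexOn_log_Gamma
  rcases hh.eq_or_lt with h0 | h0
  · subst h0
    simp
  set D : ℝ := X + h - Y with hD
  have hDp : 0 < D := by rw [hD]; linarith
  have a0 : 0 ≤ h / D := by positivity
  have a1 : h / D ≤ 1 := by
    rw [div_le_one hDp, hD]
    linarith
  have hXh : 0 < X + h := by linarith
  have e1 := hc.2 (mem_Ioi.mpr hY) (mem_Ioi.mpr hXh) (sub_nonneg.mpr a1) a0 (by ring)
  have e2 := hc.2 (mem_Ioi.mpr hY) (mem_Ioi.mpr hXh) a0 (sub_nonneg.mpr a1) (by ring)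
  simp only [smul_eq_mul] at e1 e2
  have c1 : (1 - h / D) * Y + h / D * (X + h) = Y + h := by
    have : h / D * D = h := div_mul_cancel₀ h hDp.ne'
    have e : (1 - h / D) * Y + h / D * (X + h) = Y + h / D * D := by rw [hD]; ring
    rw [e, this]
  have c2 : h / D * Y + (1 - h / D) * (X + h) = X := by
    have : h / D * D = h := div_mul_cancel₀ h hDp.ne'
    have e : h / D * Y + (1 - h / D) * (X + h) = X + h - h / D * D := by rw [hD]; ring
    rw [e, this]
    ring
  rw [c1] at e1
  rw [c2] at e2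
  nlinarith

/-- strict four point form -/
lemma lG_four_lt {X Y h : ℝ} (hY : 0 < Y) (hXY : Y < X) (hh : 0 < h) :
    lG (Y + h) + lG X < lG Y + lG (X + h) := by
  have key := lG_four (X := X + 1) (Y := Y + 1) (h := h) (by linarith) (by linarith) hh.le
  have hX : 0 < X := hY.trans hXY
  have e1 : lG (Y + 1 + h) = lG (Y + h) + Real.log (Y + h) := by
    rw [← lG_add_one (by linarith)]
    congr 1
    ring
  have e2 : lG (X + 1 + h) = lG (X + h) + Real.log (X + h) := by
    rw [← lG_add_one (by linarith)]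
    congr 1
    ring
  rw [e1, e2, lG_add_one hX, lG_add_one hY] at key
  have hlog : Real.log (X + h) + Real.log Y < Real.log (Y + h) + Real.log X := by
    rw [← Real.log_mul (by positivity) hY.ne', ← Real.log_mul (by positivity) hX.ne']
    apply Real.log_lt_log (by positivity)
    nlinarith
  linarith

lemma lG_two : lG 2 = 0 := by
  unfold lG
  rw [Real.Gamma_two, Real.log_one]

lemma lG_three : lG 3 = Real.log 2 := by
  have : (3 : ℝ) = 2 + 1 := by norm_num
  rw [this, lG_add_one (by norm_num), lG_two]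
  ring

/-- `Γ(1 + 2 α) < 2 Γ(1 + α)²` for `α < 1` -/
lemma gamma_lt {α : ℝ} (h0 : 1 / 2 < α) (h1 : α < 1) :
    Real.Gamma (1 + 2 * α) < 2 * Real.Gamma (1 + α) ^ 2 := by
  have a := lG_four_lt (X := 2 + α) (Y := 1 + α) (h := 1 - α) (by linarith) (by linarith)
    (by linarith)
  have b := lG_four_lt (X := 1 + 2 * α) (Y := 1 + α) (h := 1 - α) (by linarith) (by linarith)
    (by linarith)
  have c1 : 1 + α + (1 - α) = 2 := by ring
  have c2 : 2 + α + (1 - α) = 3 := by ring
  have c3 : 1 + 2 * α + (1 - α) = 2 + α := by ring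
  rw [c1, c2, lG_two, lG_three] at a
  rw [c1, c3, lG_two] at b
  have p1 : 0 < Real.Gamma (1 + 2 * α) := Real.Gamma_pos_of_pos (by linarith)
  have p2 : 0 < Real.Gamma (1 + α) := Real.Gamma_pos_of_pos (by linarith)
  rw [← Real.log_lt_log_iff p1 (by positivity), Real.log_mul (by norm_num) (by positivity),
    Real.log_pow]
  unfold lG at a b
  push_cast
  linarith

/-- `2 Γ(1 + α)² < Γ(1 + 2 α)` for `α > 1` -/
lemma lt_gamma {α : ℝ} (h1 : 1 < α) :
    2 * Real.Gamma (1 + α) ^ 2 < Real.Gamma (1 + 2 * α) := by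
  have a := lG_four_lt (X := 3) (Y := 2) (h := α - 1) (by linarith) (by linarith)
    (by linarith)
  have b := lG_four_lt (X := 2 + α) (Y := 2) (h := α - 1) (by linarith) (by linarith)
    (by linarith)
  have c1 : (2 : ℝ) + (α - 1) = 1 + α := by ring
  have c2 : (3 : ℝ) + (α - 1) = 2 + α := by ring
  have c3 : 2 + α + (α - 1) = 1 + 2 * α := by ring
  rw [c1, c2, lG_two, lG_three] at a
  rw [c1, c3, lG_two] at b
  have p1 : 0 < Real.Gamma (1 + 2 * α) := Real.Gamma_pos_of_pos (by linarith)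
  have p2 : 0 < Real.Gamma (1 + α) := Real.Gamma_pos_of_pos (by linarith)
  rw [← Real.log_lt_log_iff (by positivity) p1, Real.log_mul (by norm_num) (by positivity),
    Real.log_pow]
  unfold lG at a b
  push_cast
  linarith

/-- `Γ(1 + x) Γ(1 + y) ≤ Γ(1 + x + y)` -/
lemma gamma_mul_le {x y : ℝ} (hx : 0 ≤ x) (hy : 0 ≤ y) :
    Real.Gamma (1 + x) * Real.Gamma (1 + y) ≤ Real.Gamma (1 + x + y) := by
  have a := lG_four (X := 1 + x) (Y := 1) (h := y) one_pos (by linarith) hy
  have p1 : 0 < Real.Gamma (1 + x) := Real.Gamma_pos_of_pos (by linarith)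
  have p2 : 0 < Real.Gamma (1 + y) := Real.Gamma_pos_of_pos (by linarith)
  have p3 : 0 < Real.Gamma (1 + x + y) := Real.Gamma_pos_of_pos (by linarith)
  rw [← Real.log_le_log_iff (by positivity) p3, Real.log_mul p1.ne' p2.ne']
  unfold lG at a
  rw [Real.Gamma_one, Real.log_one] at a
  linarith

end Pool.Agent.KS6_42.ML
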